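import Mathlib

set_option autoImplicit false

/-!
# The reset threshold of synchronizing automata with transition monoid in DS

For every `n ≥ 1` the largest reset threshold of a synchronizing automaton with `n` states whose
transition monoid lies in `DS` is `n - 1`.

Proof of the upper bound. Let `M` be the transition monoid and let `V` be the space of the vectors
of sum zero in `ℚ^Q`. Let `U' < U` be invariant subspaces with nothing invariant in between. Since
`M` is in `DS`, the ideal of the elements of `M` which map `U` into `U'` is prime: let `x` be an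
element outside of this ideal with `M x M` minimal. Every `z` outside of the ideal has multiples
`j z` and `z j'` in the `𝓙`-class of `x`, and this class is closed under products. A reset word
maps `U` into `U'`, so some letter of it maps `U` into `U'`. By induction on the dimension some
word of length at most `dim V = n - 1` annihilates `V`, and such a word is a reset word.
-/

namespace Pool.Agent.K3h94.DS.ExactValue

/-! ### Definitions -/

/-- The principal two-sided ideal `M x M` of a monoid `M`. -/
def ideal {M : Type*} [Monoid M] (x : M) : Set M := {m | ∃ a b : M, m = a * x * b}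

/-- The class `DS`: for all `x, y, z, t`, if `MxM = MyM = MzM = MtM = MxyM` then
`MxyM = MztM`. -/
def InDS (M : Type*) [Monoid M] : Prop :=
  ∀ x y z t : M, ideal x = ideal y → ideal y = ideal z → ideal z = ideal t →
    ideal t = ideal (x * y) → ideal (x * y) = ideal (z * t)

/-- The action of a word: `run δ q w` is the state reached from `q` by reading `w`. -/
def run {Q A : Type*} (δ : Q → A → Q) (q : Q) (w : List A) : Q := w.foldl δ q

/-- `w` is a reset word of the automaton `δ`: the image of the set of states under `w` has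
exactly one element. -/
def IsReset {Q A : Type*} (δ : Q → A → Q) (w : List A) : Prop :=
  (Set.range fun q : Q => run δ q w).ncard = 1

/-- The transition monoid of `δ`: all maps `q ↦ run δ q w`, where `w` is a word, under
composition. -/
def transitionMonoid {Q A : Type*} (δ : Q → A → Q) : Submonoid (Function.End Q) where
  carrier := {f | ∃ w : List A, f = fun q => run δ q w}
  one_mem' := ⟨[], rfl⟩
  mul_mem' := by
    rintro f g ⟨u, rfl⟩ ⟨v, rfl⟩
    refine ⟨v ++ u, ?_⟩
    funext q
    simp only [run, List.foldl_append]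
    rfl

/-- The length of a shortest reset word. -/
noncomputable def resetThreshold {Q A : Type*} (δ : Q → A → Q) : ℕ :=
  sInf {k | ∃ w : List A, IsReset δ w ∧ w.length = k}

/-! ### The annihilator of a simple factor is prime -/

section Abstract

variable {M : Type*} [Monoid M] {K V : Type*} [Field K] [AddCommGroup V] [Module K V]

theorem mem_ideal_self (x : M) : x ∈ ideal x := ⟨1, 1, by simp⟩

theorem ideal_mono {x y : M} (h : y ∈ ideal x) : ideal y ⊆ ideal x := by
  obtain ⟨a, b, rfl⟩ := h
  rintro m ⟨c, d, rfl⟩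
  exact ⟨c * a, b * d, by simp only [mul_assoc]⟩

theorem mul_left_mem {x y : M} (z : M) (h : y ∈ ideal x) : z * y ∈ ideal x := by
  obtain ⟨a, b, rfl⟩ := h
  exact ⟨z * a, b, by simp only [mul_assoc]⟩

theorem mul_right_mem {x y : M} (z : M) (h : y ∈ ideal x) : y * z ∈ ideal x := by
  obtain ⟨a, b, rfl⟩ := h
  exact ⟨a, b * z, by simp only [mul_assoc]⟩

/-- `U` is invariant. -/
def Inv (ρ : M →* Module.End K V) (U : Submodule K V) : Prop := ∀ m : M, ∀ u ∈ U, ρ m u ∈ U

/-- `z` maps `U` into `U'`. -/
def Kill (ρ : M →* Module.End K V) (U' U : Submodule K V) (z : M) : Prop :=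
  ∀ u ∈ U, ρ z u ∈ U'

theorem Kill.mem {ρ : M →* Module.End K V} {U' U : Submodule K V} (hU : Inv ρ U) (hU' : Inv ρ U')
    {x y : M} (hx : Kill ρ U' U x) (hy : y ∈ ideal x) : Kill ρ U' U y := by
  obtain ⟨a, b, rfl⟩ := hy
  intro u hu
  rw [map_mul, map_mul]
  exact hU' a _ (hx _ (hU b u hu))

theorem prime_of_inDS [Finite M] (hM : InDS M) (ρ : M →* Module.End K V) (U' U : Submodule K V)
    (hU : Inv ρ U) (hU' : Inv ρ U') (hle : U' ≤ U)
    (hmax : ∀ W : Submodule K V, Inv ρ W → U' ≤ W → W ≤ U → W = U' ∨ W = U)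
    (z₁ z₂ : M) (h₁ : ¬ Kill ρ U' U z₁) (h₂ : ¬ Kill ρ U' U z₂) : ¬ Kill ρ U' U (z₁ * z₂) := by
  classical
  -- an element outside the ideal which generates a minimal ideal
  obtain ⟨x, hx, hxmin⟩ : ∃ x : M, ¬ Kill ρ U' U x ∧
      ∀ y : M, ¬ Kill ρ U' U y → y ∈ ideal x → ideal y = ideal x := by
    have hne : ({x : M | ¬ Kill ρ U' U x}).Nonempty := ⟨z₁, h₁⟩
    obtain ⟨x, hx, hmin⟩ := Set.exists_min_image {x : M | ¬ Kill ρ U' U x}
      (fun x => (ideal x).ncard) (Set.toFinite _) hne
    refine ⟨x, hx, fun y hy hyx => ?_⟩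
    exact Set.eq_of_subset_of_ncard_le (ideal_mono hyx) (hmin y hy) (Set.toFinite _)
  -- right multiples
  have factA : ∀ z : M, ¬ Kill ρ U' U z → ∃ j : M, j ∈ ideal x ∧ ¬ Kill ρ U' U (z * j) := by
    intro z hz
    by_contra hcon
    push Not at hcon
    set S : Submodule K V := U' ⊔ Submodule.span K {v | ∃ j ∈ ideal x, ∃ u ∈ U, v = ρ j u} with hS
    have hSinv : Inv ρ S := by
      intro m u hu
      rw [hS, Submodule.mem_sup] at hu
      obtain ⟨a, ha, b, hb, rfl⟩ := hu
      rw [map_add]
      refine Submodule.add_mem _ (Submodule.mem_sup_left (hU' m a ha)) (Submodule.mem_sup_right ?_)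
      induction hb using Submodule.span_induction with
      | mem v hv =>
        obtain ⟨j, hj, u, hu, rfl⟩ := hv
        exact Submodule.subset_span ⟨m * j, mul_left_mem m hj, u, hu, by rw [map_mul]; rfl⟩
      | zero => rw [map_zero]; exact Submodule.zero_mem _
      | add v w _ _ h1 h2 => rw [map_add]; exact Submodule.add_mem _ h1 h2
      | smul c v _ h1 => rw [map_smul]; exact Submodule.smul_mem _ c h1
    have hSU : S ≤ U := by
      refine sup_le hle (Submodule.span_le.2 ?_)
      rintro v ⟨j, _, u, hu, rfl⟩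
      exact hU j u hu
    have hSne : S ≠ U' := by
      intro h
      apply hx
      intro u hu
      rw [← h]
      exact Submodule.mem_sup_right (Submodule.subset_span ⟨x, mem_ideal_self x, u, hu, rfl⟩)
    have hSeq : S = U := (hmax S hSinv le_sup_left hSU).resolve_left hSne
    apply hz
    intro u hu
    rw [← hSeq, hS, Submodule.mem_sup] at hu
    obtain ⟨a, ha, b, hb, rfl⟩ := hu
    rw [map_add]
    refine Submodule.add_mem _ (hU' z a ha) ?_
    induction hb using Submodule.span_induction with
    | mem v hv =>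
      obtain ⟨j, hj, u, hu, rfl⟩ := hv
      have := hcon j hj u hu
      rwa [map_mul] at this
    | zero => rw [map_zero]; exact Submodule.zero_mem _
    | add v w _ _ h1 h2 => rw [map_add]; exact Submodule.add_mem _ h1 h2
    | smul c v _ h1 => rw [map_smul]; exact Submodule.smul_mem _ c h1
  -- left multiples
  have factB : ∀ z : M, ¬ Kill ρ U' U z → ∃ j : M, j ∈ ideal x ∧ ¬ Kill ρ U' U (j * z) := by
    intro z hz
    by_contra hcon
    push Not at hcon
    set S : Submodule K V := U' ⊔ Submodule.span K {v | ∃ m : M, ∃ u ∈ U, v = ρ (m * z) u} with hS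
    have hSinv : Inv ρ S := by
      intro m u hu
      rw [hS, Submodule.mem_sup] at hu
      obtain ⟨a, ha, b, hb, rfl⟩ := hu
      rw [map_add]
      refine Submodule.add_mem _ (Submodule.mem_sup_left (hU' m a ha)) (Submodule.mem_sup_right ?_)
      induction hb using Submodule.span_induction with
      | mem v hv =>
        obtain ⟨j, u, hu, rfl⟩ := hv
        refine Submodule.subset_span ⟨m * j, u, hu, ?_⟩
        rw [mul_assoc m j z, map_mul ρ m (j * z)]
        rfl
      | zero => rw [map_zero]; exact Submodule.zero_mem _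
      | add v w _ _ h1 h2 => rw [map_add]; exact Submodule.add_mem _ h1 h2
      | smul c v _ h1 => rw [map_smul]; exact Submodule.smul_mem _ c h1
    have hSU : S ≤ U := by
      refine sup_le hle (Submodule.span_le.2 ?_)
      rintro v ⟨j, u, hu, rfl⟩
      exact hU _ u hu
    have hSne : S ≠ U' := by
      intro h
      apply hz
      intro u hu
      rw [← h]
      exact Submodule.mem_sup_right (Submodule.subset_span ⟨1, u, hu, by rw [one_mul]⟩)
    have hSeq : S = U := (hmax S hSinv le_sup_left hSU).resolve_left hSne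
    apply hx
    intro u hu
    rw [← hSeq, hS, Submodule.mem_sup] at hu
    obtain ⟨a, ha, b, hb, rfl⟩ := hu
    rw [map_add]
    refine Submodule.add_mem _ (hU' x a ha) ?_
    induction hb using Submodule.span_induction with
    | mem v hv =>
      obtain ⟨m, u, hu, rfl⟩ := hv
      have := hcon (x * m) (mul_right_mem m (mem_ideal_self x)) u hu
      rw [mul_assoc, map_mul ρ x (m * z)] at this
      exact this
    | zero => rw [map_zero]; exact Submodule.zero_mem _
    | add v w _ _ h1 h2 => rw [map_add]; exact Submodule.add_mem _ h1 h2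
    | smul c v _ h1 => rw [map_smul]; exact Submodule.smul_mem _ c h1
  -- the class of `x` is closed under products
  obtain ⟨j, hj, hxj⟩ := factA x hx
  have hjk : ¬ Kill ρ U' U j := fun h => hxj (h.mem hU hU' (mul_left_mem x (mem_ideal_self j)))
  have hJj : ideal j = ideal x := hxmin j hjk hj
  have hJxj : ideal (x * j) = ideal x := hxmin _ hxj (mul_left_mem x hj)
  obtain ⟨j₁, hj₁, hk₁⟩ := factB z₁ h₁
  obtain ⟨j₂, hj₂, hk₂⟩ := factA z₂ h₂
  have hJ1 : ideal (j₁ * z₁) = ideal x := hxmin _ hk₁ (mul_right_mem z₁ hj₁)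
  have hJ2 : ideal (z₂ * j₂) = ideal x := hxmin _ hk₂ (mul_left_mem z₂ hj₂)
  have key := hM x j (j₁ * z₁) (z₂ * j₂) hJj.symm (hJj.trans hJ1.symm) (hJ1.trans hJ2.symm)
    (hJ2.trans hJxj.symm)
  intro hkill
  apply hx
  have hmem : x ∈ ideal (j₁ * z₁ * (z₂ * j₂)) := by
    rw [← key, hJxj]
    exact mem_ideal_self x
  refine Kill.mem hU hU' hkill (?_ : x ∈ ideal (z₁ * z₂))
  refine ideal_mono (x := z₁ * z₂) ?_ hmem
  exact ⟨j₁, j₂, by simp only [mul_assoc]⟩

end Abstract

/-! ### The upper bound -/

section Upper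

variable {Q A : Type*}

/-- the linear representation of the monoid of all maps `Q → Q` on `ℚ^Q` -/
noncomputable def rep (Q : Type*) : Function.End Q →* Module.End ℚ (Q →₀ ℚ) where
  toFun f := Finsupp.lmapDomain ℚ ℚ f
  map_one' := Finsupp.lmapDomain_id ℚ ℚ
  map_mul' f g := Finsupp.lmapDomain_comp ℚ ℚ g f

/-- the representation of the transition monoid -/
noncomputable def trep (δ : Q → A → Q) : transitionMonoid δ →* Module.End ℚ (Q →₀ ℚ) :=
  (rep Q).comp (transitionMonoid δ).subtype

/-- the element of the transition monoid given by a word -/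
def el (δ : Q → A → Q) (w : List A) : transitionMonoid δ := ⟨fun q => run δ q w, w, rfl⟩

theorem el_append (δ : Q → A → Q) (u v : List A) : el δ (u ++ v) = el δ v * el δ u := by
  apply Subtype.ext
  funext q
  simp only [el, run, List.foldl_append]
  rfl

theorem el_nil (δ : Q → A → Q) : el δ [] = 1 := rfl

theorem exists_letter [Finite Q] (δ : Q → A → Q) (hM : InDS (transitionMonoid δ))
    (U' U : Submodule ℚ (Q →₀ ℚ)) (hU : Inv (trep δ) U) (hU' : Inv (trep δ) U') (hle : U' ≤ U)
    (hne : U' ≠ U)
    (hmax : ∀ W : Submodule ℚ (Q →₀ ℚ), Inv (trep δ) W → U' ≤ W → W ≤ U → W = U' ∨ W = U)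
    (w : List A) (hw : Kill (trep δ) U' U (el δ w)) :
    ∃ a : A, Kill (trep δ) U' U (el δ [a]) := by
  have : Finite (Function.End Q) := inferInstanceAs (Finite (Q → Q))
  by_contra hcon
  push Not at hcon
  have hall : ∀ w : List A, ¬ Kill (trep δ) U' U (el δ w) := by
    intro w
    induction w with
    | nil =>
      intro h
      apply hne
      refine le_antisymm hle fun u hu => ?_
      have := h u hu
      rw [el_nil, map_one] at this
      exact this
    | cons a w ih =>
      have e : el δ (a :: w) = el δ w * el δ [a] := el_append δ [a] w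
      rw [e]
      exact prime_of_inDS hM (trep δ) U' U hU hU' hle hmax _ _ ih (hcon a)
  exact hall w hw

theorem exists_word [Finite Q] (δ : Q → A → Q) (hM : InDS (transitionMonoid δ)) (w : List A) :
    ∀ (d : ℕ) (U : Submodule ℚ (Q →₀ ℚ)), Module.finrank ℚ U = d → Inv (trep δ) U →
      Kill (trep δ) ⊥ U (el δ w) →
      ∃ v : List A, v.length ≤ d ∧ Kill (trep δ) ⊥ U (el δ v) := by
  intro d
  induction d using Nat.strong_induction_on with
  | _ d ih =>
    intro U hd hU hw
    have : FiniteDimensional ℚ (Q →₀ ℚ) := by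
      have := Fintype.ofFinite Q
      infer_instance
    rcases eq_or_ne U ⊥ with rfl | hne
    · refine ⟨[], by simp, fun u hu => ?_⟩
      rw [el_nil, map_one]
      exact hu
    · -- a maximal proper invariant subspace
      obtain ⟨U', ⟨hU', hlt⟩, hmax⟩ : ∃ U' : Submodule ℚ (Q →₀ ℚ), (Inv (trep δ) U' ∧ U' < U) ∧
          ∀ W, (Inv (trep δ) W ∧ W < U) → ¬ U' < W := by
        have hS : ({W : Submodule ℚ (Q →₀ ℚ) | Inv (trep δ) W ∧ W < U}).Nonempty := by
          refine ⟨⊥, fun m u hu => ?_, bot_lt_iff_ne_bot.2 hne⟩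
          rw [Submodule.mem_bot] at hu
          rw [hu, map_zero]
          exact Submodule.zero_mem _
        obtain ⟨U', h1, h2⟩ := (wellFounded_gt (α := Submodule ℚ (Q →₀ ℚ))).has_min _ hS
        exact ⟨U', h1, fun W hW => h2 W hW⟩
      have hmax' : ∀ W : Submodule ℚ (Q →₀ ℚ), Inv (trep δ) W → U' ≤ W → W ≤ U →
          W = U' ∨ W = U := by
        intro W hW h1 h2
        by_cases hWU : W = U
        · exact Or.inr hWU
        · left
          by_contra hne'
          exact hmax W ⟨hW, lt_of_le_of_ne h2 hWU⟩ (lt_of_le_of_ne h1 (Ne.symm hne'))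
      have hkill : Kill (trep δ) U' U (el δ w) := fun u hu => bot_le (a := U') (hw u hu)
      obtain ⟨a, ha⟩ := exists_letter δ hM U' U hU hU' hlt.le hlt.ne hmax' w hkill
      have hfr : Module.finrank ℚ U' < d := by
        rw [← hd]
        exact Submodule.finrank_lt_finrank_of_lt hlt
      obtain ⟨v, hv, hv2⟩ := ih _ hfr U' rfl hU' (fun u hu => hw u (hlt.le hu))
      refine ⟨a :: v, by simp only [List.length_cons]; omega, fun u hu => ?_⟩
      have e : el δ (a :: v) = el δ v * el δ [a] := el_append δ [a] v
      rw [e, map_mul]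
      exact hv2 _ (ha u hu)

/-- the vectors of sum zero -/
noncomputable def zeroSum (Q : Type*) : Submodule ℚ (Q →₀ ℚ) :=
  LinearMap.ker (Finsupp.linearCombination ℚ (fun _ : Q => (1 : ℚ)))

theorem rep_apply (f : Function.End Q) (v : Q →₀ ℚ) : rep Q f v = Finsupp.mapDomain f v := rfl

theorem isReset_iff [Nonempty Q] (δ : Q → A → Q) (w : List A) :
    IsReset δ w ↔ ∀ p q : Q, run δ p w = run δ q w := by
  unfold IsReset
  rw [Set.ncard_eq_one]
  constructor
  · rintro ⟨a, ha⟩ p q
    have h1 : run δ p w ∈ Set.range fun q : Q => run δ q w := ⟨p, rfl⟩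
    have h2 : run δ q w ∈ Set.range fun q : Q => run δ q w := ⟨q, rfl⟩
    rw [ha, Set.mem_singleton_iff] at h1 h2
    rw [h1, h2]
  · intro h
    obtain ⟨p⟩ := ‹Nonempty Q›
    refine ⟨run δ p w, ?_⟩
    ext q
    simp only [Set.mem_range, Set.mem_singleton_iff]
    constructor
    · rintro ⟨y, rfl⟩
      exact h y p
    · rintro rfl
      exact ⟨p, rfl⟩

theorem kill_iff [Nonempty Q] (δ : Q → A → Q) (w : List A) :
    Kill (trep δ) ⊥ (zeroSum Q) (el δ w) ↔ IsReset δ w := by
  classical
  rw [isReset_iff]
  constructor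
  · intro h p q
    have hmem : Finsupp.single p (1 : ℚ) - Finsupp.single q 1 ∈ zeroSum Q := by
      simp [zeroSum]
    have h1 := h _ hmem
    rw [Submodule.mem_bot] at h1
    have h2 : Finsupp.mapDomain (fun q => run δ q w) (Finsupp.single p (1 : ℚ)
        - Finsupp.single q 1) = 0 := h1
    rw [Finsupp.mapDomain_sub, Finsupp.mapDomain_single, Finsupp.mapDomain_single, sub_eq_zero] at h2
    exact Finsupp.single_left_injective one_ne_zero h2
  · intro h v hv
    obtain ⟨p⟩ := ‹Nonempty Q›
    rw [Submodule.mem_bot]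
    show Finsupp.mapDomain (fun q => run δ q w) v = 0
    have hconst : (fun q => run δ q w) = fun _ : Q => run δ p w := by
      funext q
      exact h q p
    rw [hconst]
    have hsum : v.sum (fun _ c => c) = 0 := by
      have : Finsupp.linearCombination ℚ (fun _ : Q => (1 : ℚ)) v = 0 := hv
      rw [Finsupp.linearCombination_apply] at this
      simpa using this
    rw [Finsupp.mapDomain, ← Finsupp.single_sum, hsum, Finsupp.single_zero]

theorem upper [Fintype Q] [Nonempty Q] (δ : Q → A → Q) (hM : InDS (transitionMonoid δ))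
    (w : List A) (hw : IsReset δ w) :
    ∃ v : List A, v.length ≤ Fintype.card Q - 1 ∧ IsReset δ v := by
  classical
  have hinv : Inv (trep δ) (zeroSum Q) := by
    intro m v hv
    have h0 : Finsupp.linearCombination ℚ (fun _ : Q => (1 : ℚ)) v = 0 := hv
    have h1 : ∀ f : Q → Q, Finsupp.linearCombination ℚ (fun _ : Q => (1 : ℚ))
        (Finsupp.mapDomain f v) = 0 := by
      intro f
      rw [Finsupp.linearCombination_mapDomain]
      exact h0
    exact h1 m.1
  obtain ⟨v, hv, hv2⟩ := exists_word δ hM w _ (zeroSum Q) rfl hinv ((kill_iff δ w).2 hw)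
  refine ⟨v, hv.trans ?_, (kill_iff δ v).1 hv2⟩
  have hlt : zeroSum Q < ⊤ := by
    rw [lt_top_iff_ne_top]
    intro h
    obtain ⟨p⟩ := ‹Nonempty Q›
    have h1 : Finsupp.single p (1 : ℚ) ∈ zeroSum Q := by rw [h]; trivial
    simp [zeroSum] at h1
  have h2 := Submodule.finrank_lt_finrank_of_lt hlt
  rw [finrank_top, Module.finrank_finsupp_self] at h2
  omega

end Upper

/-! ### The lower bound -/

section Lower

/-- a commutative monoid lies in `DS` -/
theorem inDS_of_comm {M : Type*} [Monoid M] (h : ∀ a b : M, a * b = b * a) : InDS M := by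
  have hid : ∀ x y : M, ideal x = ideal y → ∃ a, y = a * x := by
    intro x y hxy
    obtain ⟨a, b, hab⟩ : y ∈ ideal x := by rw [hxy]; exact mem_ideal_self y
    exact ⟨a * b, by rw [hab, mul_assoc, mul_assoc, h x b]⟩
  have hmem : ∀ x y a : M, y = a * x → ideal y ⊆ ideal x := by
    intro x y a hy
    exact ideal_mono ⟨a, 1, by rw [hy, mul_one]⟩
  have hcomm : ∀ a b c d : M, (a * b) * (c * d) = (a * c) * (b * d) := by
    intro a b c d
    rw [mul_assoc, mul_assoc, ← mul_assoc b, h b c, mul_assoc]
  intro x y z t hxy hyz hzt _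
  obtain ⟨a, ha⟩ := hid x z (hxy.trans hyz)
  obtain ⟨b, hb⟩ := hid z x (hxy.trans hyz).symm
  obtain ⟨c, hc⟩ := hid y t (hyz.trans hzt)
  obtain ⟨d, hd⟩ := hid t y (hyz.trans hzt).symm
  apply Set.Subset.antisymm
  · exact hmem (z * t) (x * y) (b * d) (by rw [hcomm, ← hb, ← hd])
  · exact hmem (x * y) (z * t) (a * c) (by rw [hcomm, ← ha, ← hc])

/-- the automaton with the states `0, ..., n - 1` and one letter `i ↦ min (i + 1) (n - 1)` -/
def chain (n : ℕ) (i : Fin n) (_ : Unit) : Fin n :=
  ⟨min (i.1 + 1) (n - 1), by have := i.2; omega⟩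

theorem run_chain (n : ℕ) (i : Fin n) (w : List Unit) :
    (run (chain n) i w).1 = min (i.1 + w.length) (n - 1) := by
  induction w generalizing i with
  | nil =>
    have := i.2
    simp only [run, List.foldl_nil, List.length_nil]
    omega
  | cons a w ih =>
    have h := ih (chain n i a)
    simp only [run, List.foldl_cons] at h ⊢
    rw [h]
    simp only [chain, List.length_cons]
    omega

theorem chain_reset {n : ℕ} (hn : 1 ≤ n) (w : List Unit) :
    IsReset (chain n) w ↔ n - 1 ≤ w.length := by
  have : Nonempty (Fin n) := ⟨⟨0, by omega⟩⟩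
  rw [isReset_iff]
  constructor
  · intro h
    have h1 := congrArg Fin.val (h ⟨0, by omega⟩ ⟨n - 1, by omega⟩)
    rw [run_chain, run_chain] at h1
    simp only at h1
    omega
  · intro h p q
    apply Fin.ext
    rw [run_chain, run_chain]
    omega

theorem chain_threshold {n : ℕ} (hn : 1 ≤ n) : resetThreshold (chain n) = n - 1 := by
  unfold resetThreshold
  apply le_antisymm
  · refine Nat.sInf_le ⟨List.replicate (n - 1) (), ?_, by simp⟩
    rw [chain_reset hn]
    simp
  · refine le_csInf ⟨n - 1, List.replicate (n - 1) (), ?_, by simp⟩ ?_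
    · rw [chain_reset hn]
      simp
    · rintro k ⟨w, hw, rfl⟩
      exact (chain_reset hn w).1 hw

theorem chain_comm (n : ℕ) (a b : transitionMonoid (chain n)) : a * b = b * a := by
  obtain ⟨_, u, rfl⟩ := a
  obtain ⟨_, v, rfl⟩ := b
  apply Subtype.ext
  funext i
  apply Fin.ext
  show (run (chain n) (run (chain n) i v) u).1 = (run (chain n) (run (chain n) i u) v).1
  rw [run_chain, run_chain, run_chain, run_chain]
  omega

end Lower

/-- **The exact value `C_DS(n) = n - 1`.** For every `n ≥ 1`, the number `n - 1` is the largest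
value of the length of a shortest reset word, over all synchronizing automata with `n` states, with
any finite nonempty alphabet, whose transition monoid lies in `DS`. -/
theorem result (n : ℕ) (hn : 1 ≤ n) :
    IsGreatest {k : ℕ | ∃ (Q A : Type) (_ : Fintype Q) (_ : Fintype A) (_ : Nonempty A)
      (δ : Q → A → Q), Fintype.card Q = n ∧ (∃ w : List A, IsReset δ w) ∧
        InDS (transitionMonoid δ) ∧ resetThreshold δ = k} (n - 1) := by
  constructor
  · exact ⟨Fin n, Unit, inferInstance, inferInstance, inferInstance, chain n, Fintype.card_fin n,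
      ⟨List.replicate (n - 1) (), (chain_reset hn _).2 (by simp)⟩,
      inDS_of_comm (chain_comm n), chain_threshold hn⟩
  · rintro k ⟨Q, A, _, _, _, δ, hcard, ⟨w, hw⟩, hDS, rfl⟩
    have : Nonempty Q := Fintype.card_pos_iff.1 (by omega)
    obtain ⟨v, hv, hv2⟩ := upper δ hDS w hw
    rw [hcard] at hv
    have h1 : resetThreshold δ ≤ v.length := by
      unfold resetThreshold
      exact Nat.sInf_le ⟨v, hv2, rfl⟩
    exact h1.trans hv

end Pool.Agent.K3h94.DS.ExactValue
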